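import Pool.Agent.J4H23.VD.Stm

/-!
Project VD of helper23 (MP_cff830_lc): (AIN).
-/

set_option autoImplicit false

namespace Pool.Agent.J4H57.VD

open Finset Pool.Agent.J4H23.VD
theorem vs_wgF (m : ℕ) (Y : Finset (Fin m × Fin m)) (w : Fin m → ℕ) :
    vs (wgF m Y w) = (List.finRange m).map (fun i => i.val) := by
  unfold vs wgF
  rw [List.map_map]
  rfl

theorem mem_edges (m : ℕ) (Y : Finset (Fin m × Fin m)) (w : Fin m → ℕ) (e : ℕ × ℕ) :
    e ∈ (wgF m Y w).2 ↔ ∃ u v : Fin m, (u, v) ∈ Y ∧ u < v ∧ (u.val, v.val) = e := by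
  unfold wgF
  rw [List.mem_map]
  constructor
  · rintro ⟨⟨u, v⟩, h, rfl⟩
    rw [List.mem_filter] at h
    have h2 := of_decide_eq_true h.2
    exact ⟨u, v, h2.1, h2.2, rfl⟩
  · rintro ⟨u, v, h1, h2, rfl⟩
    refine ⟨(u, v), ?_, rfl⟩
    rw [List.mem_filter]
    refine ⟨?_, decide_eq_true ⟨h1, h2⟩⟩
    rw [List.mem_product]
    exact ⟨List.mem_finRange u, List.mem_finRange v⟩

theorem t_AIN : S_AIN := by
  intro m Y w L hL
  refine ⟨⟨?_, ?_⟩, ?_, ?_⟩
  · rw [vs_wgF]
    exact (List.nodup_finRange m).map Fin.val_injective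
  · intro e he
    obtain ⟨u, v, -, huv, rfl⟩ := (mem_edges m Y w e).mp he
    rw [vs_wgF]
    refine ⟨List.mem_map.mpr ⟨u, List.mem_finRange u, rfl⟩, List.mem_map.mpr ⟨v, List.mem_finRange v, rfl⟩, ?_⟩
    exact (Fin.lt_def.mp huv).ne
  · change ((List.finRange m).map (fun i => (i.val, w i))).length = m
    rw [List.length_map, List.length_finRange]
  · intro I hI hE
    have h1 : I ⊆ (univ.filter (fun i : Fin m => i.val ∈ I)).image Fin.val := by
      intro x hx
      have h2 := hI hx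
      rw [List.mem_toFinset, vs_wgF, List.mem_map] at h2
      obtain ⟨i, -, hi⟩ := h2
      change i.val = x at hi
      rw [mem_image]
      exact ⟨i, mem_filter.mpr ⟨mem_univ i, by rw [hi]; exact hx⟩, hi⟩
    refine (card_le_card h1).trans (card_image_le.trans (hL _ ?_))
    intro u hu v hv huv hY
    exact hE (u.val, v.val) ((mem_edges m Y w _).mpr ⟨u, v, hY, huv, rfl⟩)
      ⟨(mem_filter.mp hu).2, (mem_filter.mp hv).2⟩

end Pool.Agent.J4H57.VD
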