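import Pool.Agent.J4H23.VD.Stm

/-!
Project VD of helper23 (MP_cff830_lc): (BID).
-/

set_option autoImplicit false

namespace Pool.Agent.J4H57.VD

open Finset Pool.Agent.J4H23.VD Pool.Agent.J4H23.SB Pool.Agent.J4H63.DB Pool.Agent.NPC Pool.Agent.H49R2.PC

theorem wgt_sum (l : List (ℕ × ℕ)) (C : List ℕ) :
    ((l.filter (fun p => decide (p.1 ∈ C))).map Prod.snd).sum =
      ∑ i ∈ range l.length, if (l.map Prod.fst).getD i 0 ∈ C then (l.map Prod.snd).getD i 0 else 0 := by
  induction l with
  | nil => simp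
  | cons p l ih =>
    rw [List.length_cons, sum_range_succ']
    simp only [List.map_cons, List.getD_cons_succ, List.getD_cons_zero]
    rw [← ih]
    by_cases h : p.1 ∈ C
    · rw [List.filter_cons_of_pos (by simpa using h), List.map_cons, List.sum_cons, if_pos h, add_comm]
    · rw [List.filter_cons_of_neg (by simpa using h), if_neg h, add_zero]

theorem wgt_G (G : WG) (C : List ℕ) :
    wgt G C = ∑ i ∈ range G.1.length, if (vs G).getD i 0 ∈ C then (wl G).getD i 0 else 0 := wgt_sum G.1 C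

theorem wgt_H (G : WG) (m s : ℕ) (r : List Bool) (C : List ℕ) (hm : G.1.length ≤ m) :
    wgt (wn m (em G) (wl G) s r) C = ∑ i ∈ range G.1.length, if i ∈ C then (wl G).getD i 0 else 0 := by
  have h1 := wgt_sum ((List.range m).map (fun i => (i, (wl G).getD i 0))) C
  have h2 : wgt (wn m (em G) (wl G) s r) C = ∑ i ∈ range m, if i ∈ C then (wl G).getD i 0 else 0 := by
    unfold wgt wn
    rw [h1, List.length_map, List.length_range, List.map_map, List.map_map]
    refine sum_congr rfl fun i hi => ?_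
    rw [mem_range] at hi
    have e1 : (List.map (Prod.fst ∘ fun i => (i, (wl G).getD i 0)) (List.range m)).getD i 0 = i := by
      rw [List.getD_eq_getElem _ _ (by simpa using hi)]
      simp
    have e2 : (List.map (Prod.snd ∘ fun i => (i, (wl G).getD i 0)) (List.range m)).getD i 0 = (wl G).getD i 0 := by
      rw [List.getD_eq_getElem _ _ (by simpa using hi)]
      simp
    rw [e1, e2]
  rw [h2]
  symm
  refine sum_subset (range_subset_range.mpr hm) fun i _ hi => ?_
  rw [mem_range, not_lt] at hi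
  have : (wl G).getD i 0 = 0 := by
    apply List.getD_eq_default
    unfold wl
    rw [List.length_map]
    exact hi
  rw [this, ite_self]

theorem len_vs (G : WG) : (vs G).length = G.1.length := by
  unfold vs
  rw [List.length_map]

theorem exists_idx (G : WG) {a : ℕ} (h : a ∈ vs G) : ∃ i < G.1.length, (vs G).getD i 0 = a := by
  obtain ⟨i, hi, rfl⟩ := List.mem_iff_getElem.mp h
  refine ⟨i, by rwa [len_vs] at hi, ?_⟩
  rw [List.getD_eq_getElem _ _ hi]

theorem mem_wn {G : WG} {m s : ℕ} {r : List Bool} {i j : ℕ} :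
    (i, j) ∈ (wn m (em G) (wl G) s r).2 ↔ (i < m ∧ j < m) ∧ i < j ∧ ((i, j) ∈ em G ∨ nz m s r i j = true) := by
  unfold wn
  rw [List.mem_filter, mem_prodL, List.mem_range, List.mem_range, Bool.and_eq_true, Bool.or_eq_true, decide_eq_true_eq,
    decide_eq_true_eq]

theorem mem_em {G : WG} {i j : ℕ} :
    (i, j) ∈ em G ↔ (i < G.1.length ∧ j < G.1.length) ∧
      (((vs G).getD i 0, (vs G).getD j 0) ∈ G.2 ∨ ((vs G).getD j 0, (vs G).getD i 0) ∈ G.2) := by
  unfold Pool.Agent.J4H23.VD.em
  rw [List.mem_filter, mem_prodL, List.mem_range, List.mem_range, Bool.or_eq_true, decide_eq_true_eq, decide_eq_true_eq]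

theorem mem_back {G : WG} {C : List ℕ} {a : ℕ} :
    a ∈ back G C ↔ ∃ i, (i ∈ C ∧ i < G.1.length) ∧ (vs G).getD i 0 = a := by
  unfold back
  rw [List.mem_map]
  simp only [List.mem_filter, decide_eq_true_eq]

theorem t_BID : S_BID := by
  intro G m s r c C hG hm hc hnz hA
  obtain ⟨hcov, hopt⟩ := hA
  refine ⟨?_, ?_⟩
  · intro e he
    obtain ⟨h1, h2, h3⟩ := hG.2 e he
    obtain ⟨i, hi, hie⟩ := exists_idx G h1
    obtain ⟨j, hj, hje⟩ := exists_idx G h2
    have hij : i ≠ j := by
      rintro rfl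
      exact h3 (hie.symm.trans hje)
    have he' : ((vs G).getD i 0, (vs G).getD j 0) ∈ G.2 := by rw [hie, hje]; exact he
    rcases lt_or_gt_of_ne hij with h | h
    · have h4 := hcov (i, j) (mem_wn.mpr ⟨⟨by omega, by omega⟩, h, Or.inl (mem_em.mpr ⟨⟨hi, hj⟩, Or.inl he'⟩)⟩)
      rcases h4 with h5 | h5
      · exact Or.inl (mem_back.mpr ⟨i, ⟨h5, hi⟩, hie⟩)
      · exact Or.inr (mem_back.mpr ⟨j, ⟨h5, hj⟩, hje⟩)
    · have h4 := hcov (j, i) (mem_wn.mpr ⟨⟨by omega, by omega⟩, h, Or.inl (mem_em.mpr ⟨⟨hj, hi⟩, Or.inr he'⟩)⟩)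
      rcases h4 with h5 | h5
      · exact Or.inr (mem_back.mpr ⟨j, ⟨h5, hj⟩, hje⟩)
      · exact Or.inl (mem_back.mpr ⟨i, ⟨h5, hi⟩, hie⟩)
  · intro D hD
    obtain ⟨D', hD'⟩ : ∃ D' : List ℕ, D' = (List.range m).filter
      (fun i => decide (G.1.length ≤ i) || decide ((vs G).getD i 0 ∈ D)) := ⟨_, rfl⟩
    have hmem : ∀ i, i ∈ D' ↔ i < m ∧ (G.1.length ≤ i ∨ (vs G).getD i 0 ∈ D) := by
      intro i
      rw [hD', List.mem_filter, List.mem_range, Bool.or_eq_true, decide_eq_true_eq, decide_eq_true_eq]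
    have hcov' : IsCover (wn m (em G) (wl G) s r) D' := by
      rintro ⟨i, j⟩ he
      obtain ⟨⟨hi, hj⟩, _, h⟩ := mem_wn.mp he
      change i ∈ D' ∨ j ∈ D'
      rw [hmem, hmem]
      by_cases h1 : G.1.length ≤ i
      · exact Or.inl ⟨hi, Or.inl h1⟩
      by_cases h2 : G.1.length ≤ j
      · exact Or.inr ⟨hj, Or.inl h2⟩
      rcases h with h | h
      · obtain ⟨_, h3 | h3⟩ := mem_em.mp h
        · rcases hD _ h3 with h4 | h4
          · exact Or.inl ⟨hi, Or.inr h4⟩
          · exact Or.inr ⟨hj, Or.inr h4⟩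
        · rcases hD _ h3 with h4 | h4
          · exact Or.inr ⟨hj, Or.inr h4⟩
          · exact Or.inl ⟨hi, Or.inr h4⟩
      · rw [hnz i j (not_le.mp h1) (not_le.mp h2)] at h
        exact absurd h (by simp)
    have h1 := hopt D' hcov'
    have e1 : wgt (wn m (em G) (wl G) s r) D' = wgt G D := by
      rw [wgt_H G m s r D' hm, wgt_G G D]
      refine sum_congr rfl fun i hi => ?_
      rw [mem_range] at hi
      have : i ∈ D' ↔ (vs G).getD i 0 ∈ D := by
        rw [hmem]
        constructor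
        · rintro ⟨_, h | h⟩
          · omega
          · exact h
        · exact fun h => ⟨by omega, Or.inr h⟩
      simp only [this]
    have e2 : wgt (wn m (em G) (wl G) s r) C = wgt G (back G C) := by
      rw [wgt_H G m s r C hm, wgt_G G (back G C)]
      refine sum_congr rfl fun i hi => ?_
      rw [mem_range] at hi
      have : i ∈ C ↔ (vs G).getD i 0 ∈ back G C := by
        rw [mem_back]
        constructor
        · exact fun h => ⟨i, ⟨h, hi⟩, rfl⟩
        · rintro ⟨j, ⟨hj, hjn⟩, h⟩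
          have h2 : j < (vs G).length := by rwa [len_vs]
          have h3 : i < (vs G).length := by rwa [len_vs]
          rw [List.getD_eq_getElem _ _ h2, List.getD_eq_getElem _ _ h3] at h
          have h4 := (List.Nodup.getElem_inj_iff hG.1).mp h
          rwa [← h4]
      simp only [this]
    rw [e1, e2] at h1
    exact h1

end Pool.Agent.J4H57.VD
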